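import Pool.Agent.Helper70K1.Perm.Bounds

/-!
# Sums of row-local determinants

If the permanent of the `n` times `n` matrices with entries `0` and `1` is a sum of `k`
determinants of matrices of any size, whose rows are arbitrary functions of single rows of the
given matrix, with at most `g` rows for each row, then `k` is exponentially large in `n`.
-/

set_option autoImplicit false

namespace Pool.Agent.Helper70.Old.ArbitraryRowDeterminants

open Pool.Agent.Helper70K1.Perm

/-- Let `n! ≠ 0` in the field `K`. For `i < k` let `M i X` be a square matrix over `K`, of any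
size, that depends on the `n` times `n` matrix `X` such that the row `s` of `M i X` depends only on
the row `j` of `X` if `row i s = some j` and does not depend on `X` if `row i s = none`, where at
most `g` rows `s` have `row i s = some j`, for all `i` and `j`. If the permanent of `X` is the sum
of the determinants of the matrices `M i X` for all `X` with entries `0` and `1`, then `k` is at
least `choose n a / choose (2 g a) (g a)` if `2 a ≤ n`, and at least `2 ^ ⌊n / (2 * 4 ^ g)⌋`. -/
theorem result {K : Type} [Field K] {n k g : ℕ} (hK : ((n.factorial : ℕ) : K) ≠ 0)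
    (ι : Fin k → Type) [∀ i, Fintype (ι i)] [∀ i, DecidableEq (ι i)]
    (row : ∀ i, ι i → Option (Fin n))
    (hrow : ∀ i (j : Fin n), (Finset.univ.filter fun s => row i s = some j).card ≤ g)
    (M : ∀ i, Matrix (Fin n) (Fin n) K → Matrix (ι i) (ι i) K)
    (hM : ∀ i s (X Y : Matrix (Fin n) (Fin n) K), (∀ j, row i s = some j → X j = Y j) →
      M i X s = M i Y s)
    (h : ∀ X : Matrix (Fin n) (Fin n) K, (∀ i j, X i j = 0 ∨ X i j = 1) →
      ∑ i, (M i X).det = X.permanent) :
    (∀ a : ℕ, 2 * a ≤ n → n.choose a ≤ k * (2 * (g * a)).choose (g * a)) ∧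
      2 ^ (n / (2 * 4 ^ g)) ≤ k :=
  have h1 := fun (a : ℕ) (ha : 2 * a ≤ n) => rowLocal hK row hrow M hM h ha
  ⟨h1, exp_local h1⟩

end Pool.Agent.Helper70.Old.ArbitraryRowDeterminants
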