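import Pool.Agent.Helper70K1.SP.McMain

/-!
# Membership comparable sets and polynomial space
-/

set_option autoImplicit false

namespace Pool.Agent.Helper70.Old.MembershipComparable

open Pool.Agent.NPC Pool.Agent.Helper70K1.SP
open Pool.Agent.H623R2.PS (InPSPACE)

/-- Every language in PSPACE is in P if and only if every language in PSPACE is
`O(log n)`-membership comparable. -/
theorem result : (∀ L : Set (List Bool), InPSPACE L → LogMC L) ↔
    ∀ L : Set (List Bool), InPSPACE L → InP L :=
  mc_iff

end Pool.Agent.Helper70.Old.MembershipComparable
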