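import Pool.Agent.Helper70K1.SP.Dnf

/-!
# Sparse sets that are hard for PSPACE under reductions by normal forms of bounded width
-/

set_option autoImplicit false

namespace Pool.Agent.Helper70.Old.SparseNormalForms

open Pool.Agent.NPC Pool.Agent.Helper70K1.SP
open Pool.Agent.H623R2.PS (InPSPACE)

/-- Every language in PSPACE is in P if and only if every language in PSPACE is reducible to some
sparse set by a disjunctive or conjunctive normal form of bounded width. -/
theorem result :
    (∀ L : Set (List Bool), InPSPACE L → ∃ (k : ℕ) (S : Set (List Bool)), Sparse S ∧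
      (DNFRed k L S ∨ CNFRed k L S)) ↔ ∀ L : Set (List Bool), InPSPACE L → InP L := by
  constructor
  · intro h L hL
    obtain ⟨k, S, h1, h2⟩ := h LB inPSPACE_LB
    exact collapse_of_red h1 h2 hL
  · intro h L hL
    exact ⟨0, ∅, ⟨0, fun n => by simp⟩, Or.inl (dnf_of_inP (h L hL))⟩

end Pool.Agent.Helper70.Old.SparseNormalForms
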